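import Pool.Agent.MP_8d06cc_nt.NF.Pell

/-! The normal form of a curve of rank zero with thirteen points. -/

set_option autoImplicit false

namespace Pool.Agent.MP_8d06cc_nt.NFm

open Polynomial Finset
open H27 AB

theorem model_aff {F : Type} [Field F] [Algebra ℚ F] {x y : F} {f : ℚ[X]} (M : Model x y f)
    {α β : ℚ} (γ : ℚ) (hα : α ≠ 0) (hβ : β ≠ 0) :
    Model (algebraMap ℚ F α⁻¹ * (x - algebraMap ℚ F γ)) (algebraMap ℚ F β * y)
      (C (β ^ 2) * f.comp (C α * X + C γ)) := by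
  have a0 : algebraMap ℚ F α * algebraMap ℚ F α⁻¹ = 1 := by
    rw [← map_mul, mul_inv_cancel₀ hα, map_one]
  have b0 : algebraMap ℚ F β⁻¹ * algebraMap ℚ F β = 1 := by
    rw [← map_mul, inv_mul_cancel₀ hβ, map_one]
  have e : algebraMap ℚ F α * (algebraMap ℚ F α⁻¹ * (x - algebraMap ℚ F γ)) +
      algebraMap ℚ F γ = x := by rw [← mul_assoc, a0]; ring
  refine ⟨?_, ?_, ?_⟩
  · have := M.tr.aeval (C α⁻¹ * (X - C γ)) (by rw [natDegree_C_mul (inv_ne_zero hα)]; simp)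
      (by simp [hα])
    simpa only [map_mul, map_sub, aeval_C, aeval_X] using this
  · simp only [map_mul, aeval_comp, map_add, aeval_C, aeval_X, e, map_pow, mul_pow, M.eq]
  · rw [eq_top_iff, ← M.gen, IntermediateField.adjoin_le_iff]
    set S : Set F := {algebraMap ℚ F α⁻¹ * (x - algebraMap ℚ F γ), algebraMap ℚ F β * y}
    have h1 := add_mem (mul_mem (IntermediateField.algebraMap_mem (IntermediateField.adjoin ℚ S) α)
      (IntermediateField.subset_adjoin ℚ S (Set.mem_insert _ _)))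
      (IntermediateField.algebraMap_mem _ γ)
    have h2 := mul_mem (IntermediateField.algebraMap_mem (IntermediateField.adjoin ℚ S) β⁻¹)
      (IntermediateField.subset_adjoin ℚ S (Set.mem_insert_of_mem _ rfl))
    rw [e] at h1
    rw [← mul_assoc, b0, one_mul] at h2
    exact Set.pair_subset h1 h2

theorem sep_aff {f : ℚ[X]} (hs : f.Separable) {α δ : ℚ} (γ : ℚ) (hα : α ≠ 0) (hδ : δ ≠ 0) :
    (C δ * f.comp (C α * X + C γ)).Separable := by
  obtain ⟨a, b, h⟩ := hs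
  refine ⟨C δ⁻¹ * a.comp (C α * X + C γ), C (δ * α)⁻¹ * b.comp (C α * X + C γ), ?_⟩
  have h1 : a.comp (C α * X + C γ) * f.comp (C α * X + C γ) +
      b.comp (C α * X + C γ) * f.derivative.comp (C α * X + C γ) = 1 := by
    simpa using congrArg (comp · (C α * X + C γ)) h
  have u1 : C δ⁻¹ * C δ = 1 := by rw [← C_mul, inv_mul_cancel₀ hδ, C_1]
  have u2 : C (δ * α)⁻¹ * (C δ * C α) = 1 := by
    rw [← C_mul, ← C_mul, inv_mul_cancel₀ (mul_ne_zero hδ hα), C_1]
  simp only [derivative_mul, derivative_C, derivative_comp, derivative_add, derivative_X, zero_mul,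
    zero_add, add_zero, mul_one]
  linear_combination h1 + (a.comp (C α * X + C γ) * f.comp (C α * X + C γ)) * u1 +
    (b.comp (C α * X + C γ) * f.derivative.comp (C α * X + C γ)) * u2

/-- seven rational roots -/
def Seven (f : ℚ[X]) : Prop := ∃ e : Fin 7 → ℚ, Function.Injective e ∧ ∀ i, f.eval (e i) = 0

theorem Seven.fz {f : ℚ[X]} (h : Seven f) (hm : f.Monic) (hd : f.natDegree = 8) :
    ∃ e : Fin 8 → ℚ, f = fz e := by
  obtain ⟨e, he, h0⟩ := h
  obtain ⟨q, hq⟩ : ∏ i, (X - C (e i)) ∣ f :=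
    Finset.prod_dvd_of_coprime (fun i _ j _ hij => pairwise_coprime_X_sub_C he hij)
      fun i _ => dvd_iff_isRoot.2 (h0 i)
  have pm : (∏ i, (X - C (e i))).Monic := monic_prod_of_monic _ _ fun i _ => monic_X_sub_C _
  have qm : q.Monic := pm.of_mul_monic_left (hq ▸ hm)
  have d1 : q.natDegree = 1 := by
    have := pm.natDegree_mul qm
    rw [← hq, hd, natDegree_prod_of_monic _ _ fun i _ => monic_X_sub_C _] at this
    simp at this
    omega
  refine ⟨Fin.cons (-q.coeff 0) e, ?_⟩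
  rw [AB.fz, Fin.prod_univ_succ, hq, mul_comm]
  simp only [Fin.cons_zero, Fin.cons_succ, C_neg, sub_neg_eq_add]
  rw [← qm.eq_X_add_C d1]

theorem refl_facts {f : ℚ[X]} (hs : Squarefree f) (h7 : 7 ≤ f.natDegree) (h8 : f.natDegree ≤ 8)
    {c : ℚ} (c2 : f.eval c ≠ 0) : (f.comp (X + C c)).natDegree = f.natDegree ∧
      (reflect 8 (f.comp (X + C c))).natDegree = 8 ∧ Squarefree (reflect 8 (f.comp (X + C c))) ∧
      (reflect 8 (f.comp (X + C c))).leadingCoeff = f.eval c ∧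
      ∀ a, a ≠ c → (reflect 8 (f.comp (X + C c))).eval (a - c)⁻¹ = (a - c)⁻¹ ^ 8 * f.eval a := by
  have dg : (f.comp (X + C c)).natDegree = f.natDegree := by simp [natDegree_comp]
  have e8 : (reflect 8 (f.comp (X + C c))).coeff 8 = f.eval c := by
    simp [coeff_zero_eq_eval_zero, eval_comp]
  have d8 : (reflect 8 (f.comp (X + C c))).natDegree = 8 :=
    le_antisymm (natDegree_reflect_le.trans (by omega)) (le_natDegree_of_ne_zero (e8 ▸ c2))
  refine ⟨dg, d8, sqf_reflect (sqf_shift hs c) (by omega) (by omega) d8, ?_, fun a h => ?_⟩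
  · rw [leadingCoeff, d8, e8]
  · rw [ev_refl (inv_ne_zero (sub_ne_zero.2 h)) (by omega)]
    simp [eval_comp]

theorem exNF {F : Type} [Field F] [Algebra ℚ F] {x y : F} {g : ℚ[X]} (M : Model x y g)
    (hs : Squarefree g) (hd : g.natDegree = 8) {m : ℕ} (t : Fin (m + 3) → ℚ)
    (ht : Function.Injective t) (sq : ∀ i, IsSquare (g.eval (t i))) (n0 : ∀ i, g.eval (t i) ≠ 0) :
    ∃ z : NF ℚ m, (Seven g → Seven z.f) ∧ ∃ x' y' : F, Model x' y' z.f := by
  obtain ⟨dg, d8, s8, l8, ev⟩ := refl_facts hs (by omega) hd.le (n0 0)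
  have M1 := (M.shift (t 0)).inv (by omega)
  set g1 := reflect 8 (g.comp (X + C (t 0)))
  choose s hs' using sq
  have s0 : ∀ i, s i ≠ 0 := fun i h => n0 i (by rw [hs', h, mul_zero])
  have ne : ∀ i : Fin (m + 2), t i.succ ≠ t 0 := fun i h => Fin.succ_ne_zero i (ht h)
  set u : Fin (m + 2) → ℚ := fun i => (t i.succ - t 0)⁻¹ with hu
  have ui : Function.Injective u := fun i j h =>
    Fin.succ_injective _ (ht (by simpa [hu] using h))
  have u0 : ∀ i, u i ≠ 0 := fun i => inv_ne_zero (sub_ne_zero.2 (ne i))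
  have hα : u 1 - u 0 ≠ 0 := sub_ne_zero.2 fun h => by simpa using ui h
  set α := u 1 - u 0 with hα'
  have hβ : (s 0 * α ^ 4)⁻¹ ≠ 0 := inv_ne_zero (mul_ne_zero (s0 0) (pow_ne_zero _ hα))
  set β := (s 0 * α ^ 4)⁻¹ with hβ'
  have d2 : (g1.comp (C α * X + C (u 0))).natDegree = 8 := by
    rw [natDegree_comp, natDegree_linear hα, d8]
  have ev2 : ∀ w, (C (β ^ 2) * g1.comp (C α * X + C (u 0))).eval ((w - u 0) / α) =
      β ^ 2 * g1.eval w := fun w => by
    simp only [eval_mul, eval_C, eval_comp, eval_add, eval_X]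
    rw [mul_div_cancel₀ _ hα, sub_add_cancel]
  refine ⟨⟨C (β ^ 2) * g1.comp (C α * X + C (u 0)), fun i => (u i - u 0) / α,
    fun i => β * u i ^ 4 * s i.succ, ?_, ?_, ?_, by simp, div_self hα, fun i j h => ?_, fun i => ?_,
    fun i => mul_ne_zero (mul_ne_zero hβ (pow_ne_zero _ (u0 i))) (s0 _)⟩, ?_, _, _,
    model_aff M1 (u 0) hα hβ⟩
  · rw [Monic, leadingCoeff_mul, leadingCoeff_C, leadingCoeff_comp (by rw [natDegree_linear hα]; simp),
      leadingCoeff_linear hα, l8, d8, hs', hβ']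
    have := s0 0
    field_simp
  · rw [natDegree_C_mul (pow_ne_zero 2 hβ), d2]
  · exact sep_aff (PerfectField.separable_iff_squarefree.2 s8) _ hα (pow_ne_zero 2 hβ)
  · exact ui (by simpa [hα] using h)
  · rw [ev2, hu, ev _ (ne i), hs']
    ring
  · rintro ⟨e, he, h0⟩
    have ne' : ∀ i, e i ≠ t 0 := fun i h => n0 0 (h ▸ h0 i)
    refine ⟨fun i => ((e i - t 0)⁻¹ - u 0) / α, fun i j h => he (by simpa [hα] using h), fun i => ?_⟩
    show eval _ (C (β ^ 2) * g1.comp (C α * X + C (u 0))) = 0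
    rw [ev2, ev _ (ne' i), h0, mul_zero, mul_zero]

open Classical in
theorem octic {F : Type} [Field F] [Algebra ℚ F] {x y : F} {f : ℚ[X]} (M : Model x y f)
    (hs : Squarefree f) (hd : f.natDegree = 7 ∨ f.natDegree = 8)
    (S : Finset (ℚ × ℚ)) (hS : ∀ p ∈ S, p.2 ^ 2 = f.eval p.1) :
    ∃ (g : ℚ[X]) (T : Finset ℚ), Squarefree g ∧ g.natDegree = 8 ∧ (∃ x' y' : F, Model x' y' g) ∧
      (∀ t ∈ T, IsSquare (g.eval t)) ∧
      #S + (if f.natDegree = 7 then 1 else if IsSquare f.leadingCoeff then 2 else 0) ≤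
        ∑ t ∈ T, wt g t := by
  obtain ⟨c, hc⟩ := Infinite.exists_notMem_finset (S.image Prod.fst ∪ f.roots.toFinset)
  have c1 : c ∉ S.image Prod.fst := fun h => hc (mem_union_left _ h)
  have c2 : f.eval c ≠ 0 := fun h =>
    hc (mem_union_right _ (by simpa [hs.ne_zero] using h))
  obtain ⟨dg, d8, s8, -, ev⟩ := refl_facts hs (by omega) (by omega) c2
  have M1 := (M.shift c).inv (by omega)
  set g := f.comp (X + C c) with hg
  have ne : ∀ a ∈ S.image Prod.fst, a ≠ c := fun a ha h => c1 (h ▸ ha)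
  set T := (S.image Prod.fst).image fun a => (a - c)⁻¹ with hT
  have t1 : #S ≤ ∑ t ∈ T, wt (reflect 8 g) t := by
    rw [hT, sum_image fun a _ b _ h => by simpa using h]
    refine (fiber_le f S hS).trans (sum_le_sum fun a ha => ?_)
    simp [wt, ev a (ne a ha), sub_eq_zero, ne a ha]
  have t2 : ∀ t ∈ T, IsSquare ((reflect 8 g).eval t) := fun t ht => by
    obtain ⟨a, ha, rfl⟩ := mem_image.1 ht
    rw [ev a (ne a ha)]
    obtain ⟨p, hp, rfl⟩ := mem_image.1 ha
    exact ⟨(p.1 - c)⁻¹ ^ 4 * p.2, by rw [← hS p hp]; ring⟩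
  have t3 : 0 ∉ T := fun h => by
    obtain ⟨a, ha, e⟩ := mem_image.1 h
    exact ne a ha (by simpa [sub_eq_zero] using e)
  have e0 : (reflect 8 g).eval 0 = g.coeff 8 := by simp [← coeff_zero_eq_eval_zero]
  have t4 : ∀ k, IsSquare (g.coeff 8) → k = wt (reflect 8 g) 0 →
      ∃ (g : ℚ[X]) (T : Finset ℚ), Squarefree g ∧ g.natDegree = 8 ∧ (∃ x' y' : F, Model x' y' g) ∧
        (∀ t ∈ T, IsSquare (g.eval t)) ∧ #S + k ≤ ∑ t ∈ T, wt g t := fun k h hk =>
    ⟨_, insert 0 T, s8, d8, ⟨_, _, M1⟩, forall_mem_insert _ _ _ |>.2 ⟨e0 ▸ h, t2⟩, by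
      rw [sum_insert t3]
      omega⟩
  rw [wt, e0] at t4
  split_ifs with h7 h8
  · rw [coeff_eq_zero_of_natDegree_lt (by omega)] at t4
    exact t4 1 (by simp) (by simp)
  · have : g.coeff 8 = f.leadingCoeff := by
      rw [← hd.resolve_left h7, ← dg, coeff_natDegree, hg, leadingCoeff_comp (by simp)]
      simp
    rw [this, if_neg (leadingCoeff_ne_zero.2 hs.ne_zero)] at t4
    exact t4 2 h8 rfl
  · exact ⟨_, T, s8, d8, ⟨_, _, M1⟩, t2, t1⟩

theorem ex_inj (T : Finset ℚ) {n : ℕ} (h : n ≤ #T) :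
    ∃ t : Fin n → ℚ, Function.Injective t ∧ ∀ i, t i ∈ T :=
  ⟨T.orderEmbOfCardLe h, (T.orderEmbOfCardLe h).injective, T.orderEmbOfCardLe_mem h⟩

open Classical in
theorem stmtNF : StmtNF := by
  intro f F _ _ x y hs hd M hr hn
  obtain ⟨S, hS, h13⟩ : ∃ S : Finset (ℚ × ℚ), (∀ p ∈ S, p.2 ^ 2 = f.eval p.1) ∧
      13 ≤ #S + (if f.natDegree = 7 then 1 else if IsSquare f.leadingCoeff then 2 else 0) := by
    by_cases fin : {p : ℚ × ℚ | p.2 ^ 2 = f.eval p.1}.Finite
    · refine ⟨fin.toFinset, by simp, ?_⟩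
      rw [numPts, fin.encard_eq_coe_toFinset_card] at hn
      exact_mod_cast hn
    · obtain ⟨S, hS, e⟩ := Set.Infinite.exists_subset_card_eq fin 13
      exact ⟨S, hS, by omega⟩
  obtain ⟨g, T, sg, dg, ⟨x', y', M'⟩, sq, hc⟩ := octic M hs hd S hS
  have e : ∑ t ∈ T, wt g t = #(T.filter fun t => g.eval t = 0) +
      2 * #(T.filter fun t => ¬ g.eval t = 0) := by
    simp only [wt]
    rw [sum_ite]
    simp [mul_comm]
  have r8 : #(T.filter fun t => g.eval t = 0) ≤ 8 := by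
    rw [← dg]
    refine (card_le_card fun t ht => ?_).trans ((Multiset.toFinset_card_le _).trans (card_roots' g))
    simpa [sg.ne_zero] using (mem_filter.1 ht).2
  by_cases h7 : 7 ≤ #(T.filter fun t => g.eval t = 0)
  · obtain ⟨t, ti, ht⟩ := ex_inj (T.filter fun t => ¬ g.eval t = 0) (n := 0 + 3) (by omega)
    obtain ⟨w, wi, hw⟩ := ex_inj _ h7
    obtain ⟨z, z7, x2, y2, M2⟩ := exNF M' sg dg t ti (fun i => sq _ (mem_filter.1 (ht i)).1)
      fun i => (mem_filter.1 (ht i)).2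
    obtain ⟨N, D, hD⟩ := exTor z M2 hr
    exact ⟨0, z, N, D, hD, Or.inr ⟨rfl, (z7 ⟨w, wi, fun i => (mem_filter.1 (hw i)).2⟩).fz z.mon z.deg⟩,
      x2, y2, M2⟩
  · obtain ⟨t, ti, ht⟩ := ex_inj (T.filter fun t => ¬ g.eval t = 0) (n := 1 + 3) (by omega)
    obtain ⟨z, -, x2, y2, M2⟩ := exNF M' sg dg t ti (fun i => sq _ (mem_filter.1 (ht i)).1)
      fun i => (mem_filter.1 (ht i)).2
    obtain ⟨N, D, hD⟩ := exTor z M2 hr
    exact ⟨1, z, N, D, hD, Or.inl rfl, x2, y2, M2⟩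

end Pool.Agent.MP_8d06cc_nt.NFm
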