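import Pool.Agent.MP_8d06cc_nt.AB.Spec

/-! Pell data of a common order on a normal form. -/

set_option autoImplicit false

namespace Pool.Agent.MP_8d06cc_nt.NFm

open Polynomial
open H27 AB

/-- Pell data of order `n` at the point `(a, b)`. -/
structure PF (f : ℚ[X]) (a b : ℚ) (n : ℕ) (A B : ℚ[X]) : Prop where
  dA : A.natDegree ≤ n
  dB : B.natDegree + 4 ≤ n
  eqn : ∃ c, c ≠ 0 ∧ A ^ 2 - f * B ^ 2 = C c * (X - C a) ^ (2 * n)
  hA : A.eval a ≠ 0
  sgn : A.eval a + B.eval a * b = 0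

theorem PF.mul {f : ℚ[X]} {a b : ℚ} {n n' : ℕ} {A B A' B' : ℚ[X]} (hf : f.natDegree = 8)
    (hb : b ^ 2 = f.eval a) (h : PF f a b n A B) (h' : PF f a b n' A' B') :
    PF f a b (n + n') (A * A' + f * (B * B')) (A * B' + A' * B) := by
  obtain ⟨c, c0, e⟩ := h.eqn
  obtain ⟨c', c0', e'⟩ := h'.eqn
  have a1 := h.dA
  have a2 := h'.dA
  have b1 := h.dB
  have b2 := h'.dB
  have s1 := h.sgn
  have s2 := h'.sgn
  refine ⟨?_, ?_, ⟨c * c', mul_ne_zero c0 c0', ?_⟩, ?_, ?_⟩
  · have k1 := natDegree_mul_le (p := A) (q := A')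
    have k2 := natDegree_mul_le (p := f) (q := B * B')
    have k3 := natDegree_mul_le (p := B) (q := B')
    exact (natDegree_add_le _ _).trans (max_le (by omega) (by omega))
  · have k1 := natDegree_mul_le (p := A) (q := B')
    have k2 := natDegree_mul_le (p := A') (q := B)
    have k3 := natDegree_add_le (A * B') (A' * B)
    omega
  · rw [mul_add 2 n n', pow_add, C_mul]
    linear_combination (A' ^ 2 - f * B' ^ 2) * e + (C c * (X - C a) ^ (2 * n)) * e'
  · have : (A * A' + f * (B * B')).eval a = 2 * (A.eval a * A'.eval a) := by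
      simp only [eval_add, eval_mul, ← hb]
      linear_combination (B'.eval a * b) * s1 - (A.eval a) * s2
    rw [this]
    exact mul_ne_zero two_ne_zero (mul_ne_zero h.hA h'.hA)
  · simp only [eval_add, eval_mul, ← hb]
    linear_combination (A'.eval a + B'.eval a * b) * s1

theorem PF.pow {f : ℚ[X]} {a b : ℚ} {n : ℕ} {A B : ℚ[X]} (hf : f.natDegree = 8)
    (hb : b ^ 2 = f.eval a) (h : PF f a b n A B) (k : ℕ) :
    ∃ A B, PF f a b (n * (k + 1)) A B := by
  induction k with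
  | zero => exact ⟨A, B, by simpa using h⟩
  | succ k ih =>
    obtain ⟨A', B', h'⟩ := ih
    exact ⟨_, _, by rw [Nat.mul_succ]; exact h'.mul hf hb h⟩

theorem exPF {F : Type} [Field F] [Algebra ℚ F] {x y : F} {f : ℚ[X]} (M : Model x y f)
    (hs : Squarefree f) (hf : f.natDegree = 8) (hr : Module.rank ℤ (Pic0 ℚ F) = 0) {a b : ℚ}
    (hb : b ^ 2 = f.eval a) (b0 : b ≠ 0) :
    ∃ n : ℕ, 0 < n ∧ ∀ N, 0 < N → n ∣ N → ∃ A B, PF f a b N A B := by
  obtain ⟨n, hn, A, B, h1, h2, h3⟩ := M.tors hs hf hr (a := a) ⟨b, by rw [← hb]; ring⟩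
    (hb ▸ pow_ne_zero 2 b0)
  have ev : A.eval a ^ 2 = (B.eval a * b) ^ 2 := by
    have := congrArg (eval a) h1
    simp only [eval_sub, eval_mul, eval_pow, eval_X, eval_C, sub_self, ← hb] at this
    rw [zero_pow (by omega)] at this
    linear_combination this
  have hB : B ≠ 0 := by
    rintro rfl
    exact h3 (by simpa using ev)
  have hd : B.natDegree + 4 ≤ n := by
    have e : B ^ 2 * f = A ^ 2 - (X - C a) ^ (2 * n) := by linear_combination -h1
    have := congrArg natDegree e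
    rw [natDegree_mul (pow_ne_zero 2 hB) (by rintro rfl; simp at hf), natDegree_pow, hf] at this
    have h4 := natDegree_sub_le (A ^ 2) ((X - C a) ^ (2 * n))
    rw [natDegree_pow, natDegree_pow, natDegree_X_sub_C] at h4
    omega
  have key : ∃ B, PF f a b n A B := by
    rcases sq_eq_sq_iff_eq_or_eq_neg.1 ev with e | e
    · exact ⟨-B, h2, by simpa using hd, ⟨1, one_ne_zero, by rw [C_1]; linear_combination h1⟩, h3,
        by rw [eval_neg]; linear_combination e⟩
    · exact ⟨B, h2, hd, ⟨1, one_ne_zero, by rw [C_1]; linear_combination h1⟩, h3,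
        by linear_combination e⟩
  obtain ⟨B', h⟩ := key
  refine ⟨n, hn, ?_⟩
  rintro _ hN ⟨k, rfl⟩
  obtain ⟨k, rfl⟩ : ∃ j, k = j + 1 := ⟨k - 1, by have := Nat.pos_of_mul_pos_left hN; omega⟩
  exact h.pow hf hb k

theorem PF.inf {f : ℚ[X]} {b : ℚ} {n : ℕ} {A B : ℚ[X]} (hf : f.natDegree = 8)
    (h : PF (reflect 8 f) 0 b n A B) : ∃ A0 B0 : ℚ[X], A0.natDegree = n ∧ B0.natDegree + 4 ≤ n ∧
      ∃ c, c ≠ 0 ∧ A0 ^ 2 - f * B0 ^ 2 = C c := by
  obtain ⟨c, c0, e⟩ := h.eqn
  have a1 := h.dA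
  have b1 := h.dB
  obtain ⟨m, rfl⟩ : ∃ m, n = m + 4 := ⟨n - 4, by omega⟩
  refine ⟨reflect (m + 4) A, reflect m B, ?_, ?_, c, c0, ext_ne fun z hz => ?_⟩
  · refine le_antisymm (natDegree_reflect_le.trans (max_le le_rfl a1)) (le_natDegree_of_ne_zero ?_)
    simpa [coeff_zero_eq_eval_zero] using h.hA
  · have := natDegree_reflect_le (N := m) (p := B)
    omega
  · have := congrArg (eval z⁻¹) e
    simp only [eval_sub, eval_mul, eval_pow, eval_C, eval_X, ev_refl hz a1,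
      ev_refl (inv_ne_zero hz) hf.le, inv_inv, sub_zero,
      ev_refl hz (show B.natDegree ≤ m by omega)] at this ⊢
    have u : z * z⁻¹ = 1 := mul_inv_cancel₀ hz
    have u1 : z ^ 8 * z⁻¹ ^ 8 = 1 := by rw [← mul_pow, u, one_pow]
    have u2 : z ^ (2 * (m + 4)) * z⁻¹ ^ (2 * (m + 4)) = 1 := by rw [← mul_pow, u, one_pow]
    linear_combination z ^ (2 * (m + 4)) * this + c * u2 +
      (z ^ (2 * m) * f.eval z * B.eval z⁻¹ ^ 2) * u1

theorem exTor {F : Type} [Field F] [Algebra ℚ F] {x y : F} {m : ℕ} (z : NF ℚ m) (M : Model x y z.f)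
    (hr : Module.rank ℤ (Pic0 ℚ F) = 0) : ∃ N T, z.Tor N T := by
  have hs := z.sep.squarefree
  have d8 : (reflect 8 z.f).natDegree = 8 := by
    refine le_antisymm (natDegree_reflect_le.trans (by rw [z.deg]; omega))
      (le_natDegree_of_ne_zero ?_)
    have := z.hb 0
    rw [z.a0] at this
    simpa [coeff_zero_eq_eval_zero, ← this] using z.b0 0
  have e1 : (1 : ℚ) ^ 2 = (reflect 8 z.f).eval 0 := by
    have := z.mon.coeff_natDegree
    rw [z.deg] at this
    simp [← coeff_zero_eq_eval_zero, this]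
  obtain ⟨n0, p0, h0⟩ := exPF (M.inv z.deg.le) (sqf_reflect hs (by rw [z.deg]; omega) z.deg.le d8)
    d8 hr e1 one_ne_zero
  choose n p h using fun i => exPF M hs z.deg hr (z.hb i) (z.b0 i)
  have hN : 0 < n0 * ∏ i, n i := Nat.mul_pos p0 (Finset.prod_pos fun i _ => p i)
  obtain ⟨A, B, k⟩ := h0 _ hN (dvd_mul_right _ _)
  obtain ⟨A0, B0, k1, k2, k3⟩ := k.inf z.deg
  choose A' B' l using fun i => h i _ hN
    ((Finset.dvd_prod_of_mem n (Finset.mem_univ i)).mul_left n0)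
  exact ⟨_, ⟨A0, B0, A', B'⟩, k1, k2, k3, fun i => (l i).dA, fun i => (l i).dB, fun i => (l i).eqn,
    fun i => (l i).hA, fun i => (l i).sgn⟩

end Pool.Agent.MP_8d06cc_nt.NFm
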